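import Pool.Agent.H61.KU.TA

/-!
# Kuiper board, module ADD: adding a closed set
-/

open Topology Set
open Pool.Agent.H59 Pool.Agent.H64.LB
open Pool.Agent.H61.KU

namespace Pool.Agent.H34.KU

theorem pf_add (hM : T_MVS) : T_ADD := by
  intro Y _ j A D hA hD hEA hED hEI
  obtain ⟨M⟩ := hM (ZMod 2)
  have hU : IsOpen Aᶜ := hA.isOpen_compl
  have hV : IsOpen Dᶜ := hD.isOpen_compl
  unfold EL at hEA hED hEI ⊢
  rw [Set.compl_union]
  rw [Set.compl_inter] at hEI
  generalize Aᶜ = U at hU hEA hEI ⊢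
  generalize Dᶜ = V at hV hED hEI ⊢
  obtain ⟨ai, as⟩ := hEA
  obtain ⟨di, ds⟩ := hED
  obtain ⟨ii, is⟩ := hEI
  have cL : (inc U).comp (incL U V) = inc (U ∩ V) := rfl
  have cR : (inc V).comp (incR U V) = inc (U ∩ V) := rfl
  have cUL : (inc (U ∪ V)).comp (incUL U V) = inc U := rfl
  have cUR : (inc (U ∪ V)).comp (incUR U V) = inc V := rfl
  constructor
  · intro q hq
    rw [injective_iff_map_eq_zero]
    intro w hw
    have hL : HH.map (ZMod 2) q (incL U V) w = 0 := by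
      apply ai q hq
      rw [map_zero, ← HH.map_comp, cL, hw]
    have hR : HH.map (ZMod 2) q (incR U V) w = 0 := by
      apply di q hq
      rw [map_zero, ← HH.map_comp, cR, hw]
    obtain ⟨u, hu⟩ := (M.exact_inter Y U V hU hV q w).mp ⟨hL, hR⟩
    obtain ⟨u1, hu1⟩ := as (q + 1) (by omega) (HH.map (ZMod 2) (q + 1) (inc (U ∪ V)) u)
    have h1 : u = HH.map (ZMod 2) (q + 1) (incUL U V) u1 +
        HH.map (ZMod 2) (q + 1) (incUR U V) 0 := by
      apply ii (q + 1) (by omega)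
      rw [map_add, map_zero, map_zero, add_zero, ← HH.map_comp, cUL, hu1]
    have h2 := (M.exact_union Y U V hU hV q u).mp ⟨u1, 0, h1⟩
    rw [← hu, h2]
  · intro q hq c
    obtain ⟨u, hu⟩ := as q hq c
    obtain ⟨v, hv⟩ := ds q hq c
    have h0 : HH.map (ZMod 2) q (incUL U V) u + HH.map (ZMod 2) q (incUR U V) (-v) = 0 := by
      apply ii q (by omega)
      rw [map_add, map_zero, ← HH.map_comp, ← HH.map_comp, cUL, cUR, map_neg, hu, hv,
        add_neg_cancel]
    obtain ⟨w, hw, -⟩ := (M.exact_sum Y U V hU hV q u (-v)).mp h0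
    refine ⟨w, ?_⟩
    rw [← cL, HH.map_comp, ← hw, hu]

end Pool.Agent.H34.KU
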