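import Pool.Agent.H61.KU.TC

/-!
# Kuiper board, module NIN: exactly nine vectors
-/

open Pool.Agent.H61.KU

namespace Pool.Agent.H34.KU

theorem pf_nin (hF : T_FAC) (hS : T_SPN) (h1 : T_S1) (h3 : T_S3) (hC : T_COL) : T_NIN := by
  intro ι W _ _ _ _ _ v E hW hFam
  obtain ⟨huniv, hinter, -, -, hlt, hmono, -⟩ := hF ι W v
  have hcard : ∀ T, E T → T.card = 4 := h3 ι W v E hW hFam
  have hrku : rk v Finset.univ = 9 := by
    unfold rk
    rw [hFam.conf.span, finrank_top, hW]
  obtain ⟨T, hET, -⟩ := hFam.f1 Finset.univ huniv (by omega)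
  have hTf := (hFam.face T hET).1
  have hTr := (hFam.face T hET).2
  classical
  set X : Finset ι := Finset.univ.filter (fun x => x ∉ T ∧ IsFace v (insert x T)) with hX
  have hXm : ∀ x, x ∈ X ↔ x ∉ T ∧ IsFace v (insert x T) := by
    intro x
    rw [hX, Finset.mem_filter]
    exact ⟨fun h => h.2, fun h => ⟨Finset.mem_univ _, h⟩⟩
  have hspn := hS ι W v T Finset.univ hTf huniv (Finset.subset_univ _)
    (fun F hFf hTF _ hrk => h1 ι W v E hW hFam T F hET hFf (by rw [hrk, hTr]) hTF)
  have hset : {i | i ∈ T ∨ (i ∈ (Finset.univ : Finset ι) ∧ i ∉ T ∧ IsFace v (insert i T))}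
      = ((T ∪ X : Finset ι) : Set ι) := by
    ext i
    rw [Set.mem_ofPred_eq, Finset.mem_coe, Finset.mem_union, hXm]
    constructor
    · rintro (h | h)
      · exact Or.inl h
      · exact Or.inr h.2
    · rintro (h | h)
      · exact Or.inl h
      · exact Or.inr ⟨Finset.mem_univ _, h⟩
  rw [hset, hFam.conf.span] at hspn
  have h9 : 9 ≤ 4 + X.card := by
    have e1 : Module.finrank ℝ (Submodule.span ℝ (v '' ((T ∪ X : Finset ι) : Set ι))) = 9 := by
      rw [top_le_iff.mp hspn, finrank_top, hW]
    have e2 : Module.finrank ℝ (Submodule.span ℝ (((T ∪ X).image v : Finset W) : Set W))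
        ≤ ((T ∪ X).image v).card := finrank_span_finset_le_card _
    rw [Finset.coe_image, e1] at e2
    have e3 : ((T ∪ X).image v).card ≤ (T ∪ X).card := Finset.card_image_le
    have e4 : (T ∪ X).card ≤ T.card + X.card := Finset.card_union_le _ _
    have e5 := hcard T hET
    omega
  have key : ∀ Y : Finset ι, Y ⊆ X →
      IsFace v (Finset.univ \ Y) ∧ rk v (Finset.univ \ Y) + Y.card ≤ 9 := by
    intro Y
    induction Y using Finset.induction with
    | empty =>
      intro _
      rw [Finset.sdiff_empty]
      exact ⟨huniv, by rw [hrku, Finset.card_empty]⟩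
    | insert x Y hxY ih =>
      intro hYX
      obtain ⟨i1, i2⟩ := ih (fun z hz => hYX (Finset.mem_insert_of_mem hz))
      have hxX : x ∈ X := hYX (Finset.mem_insert_self x Y)
      have hcol := (hC ι W v E hW hFam T x hET ((hXm x).mp hxX).1 ((hXm x).mp hxX).2).1
      have heq : Finset.univ \ insert x Y = (Finset.univ \ Y) ∩ (Finset.univ.erase x) := by
        ext z
        simp only [Finset.mem_sdiff, Finset.mem_univ, true_and, Finset.mem_insert, not_or,
          Finset.mem_inter, Finset.mem_erase, and_true]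
        exact ⟨fun h => ⟨h.2, h.1⟩, fun h => ⟨h.2, h.1⟩⟩
      have hface : IsFace v (Finset.univ \ insert x Y) := by
        rw [heq]
        exact hinter _ _ i1 hcol
      refine ⟨hface, ?_⟩
      have hss : Finset.univ \ insert x Y ⊂ Finset.univ \ Y := by
        rw [Finset.ssubset_iff_of_subset]
        · exact ⟨x, by simp [hxY], by simp⟩
        · intro z hz
          simp only [Finset.mem_sdiff, Finset.mem_univ, true_and, Finset.mem_insert,
            not_or] at hz ⊢
          exact hz.2
      have h2 := hlt _ _ hface hss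
      rw [Finset.card_insert_of_notMem hxY]
      omega
  obtain ⟨kf, kr⟩ := key X (fun z hz => hz)
  have hTA : T ⊆ Finset.univ \ X := by
    intro z hz
    rw [Finset.mem_sdiff]
    exact ⟨Finset.mem_univ _, fun h => ((hXm z).mp h).1 hz⟩
  have h4 := (hmono _ _ hTA).2
  rw [hTr] at h4
  have hTX : T = Finset.univ \ X := by
    by_contra hne
    have := hlt T _ hTf (Finset.ssubset_iff_subset_ne.mpr ⟨hTA, hne⟩)
    rw [hTr] at this
    omega
  have hc9 : Fintype.card ι = 9 := by
    have e1 : (Finset.univ \ X).card = Finset.univ.card - X.card :=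
      Finset.card_sdiff_of_subset (Finset.subset_univ X)
    rw [← hTX, hcard T hET, Finset.card_univ] at e1
    have e2 : X.card ≤ Fintype.card ι := Finset.card_le_univ X
    omega
  refine ⟨hc9, ?_, hcard⟩
  refine linearIndependent_of_top_le_span_of_card_eq_finrank ?_ (by rw [hc9, hW])
  have := hFam.conf.span
  unfold sp at this
  rw [Finset.coe_univ, Set.image_univ] at this
  exact this.ge

end Pool.Agent.H34.KU
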